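import Pool.Agent.helper80.SG.Spec3

/-!
# bl:B2 - two factors
-/

set_option autoImplicit false

namespace Pool.Agent.SG

open Pool.Agent.SV

theorem B2_ch2 (n : ℕ) : 2 * (n + 1).choose 2 = (n + 1) * n := by
  have := Nat.add_one_mul_choose_eq n 1
  rw [Nat.choose_one_right] at this
  linarith

theorem B2_ch3 (n : ℕ) : 6 * (n + 2).choose 3 = (n + 2) * (n + 1) * n := by
  have h1 := Nat.add_one_mul_choose_eq (n + 1) 2
  have h2 := B2_ch2 n
  have h3 : 6 * (n + 2).choose 3 = 2 * ((n + 1 + 1).choose (2 + 1) * (2 + 1)) := by ring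
  rw [h3, ← h1]
  have h4 : 2 * ((n + 1 + 1) * (n + 1).choose 2) = (n + 2) * (2 * (n + 1).choose 2) := by ring
  rw [h4, h2]
  ring

/-- The smaller and the larger one of two numbers. -/
theorem B2_minmax (m b : ℕ) (h1 : 110 * m ^ 3 ≤ b ^ 4) (h2 : 110 * b ^ 3 ≤ m ^ 4) (hm : 110 ≤ m)
    (hb : 110 ≤ b) : ∃ a A : ℕ, 110 ≤ a ∧ a ≤ m ∧ a ≤ b ∧ m ≤ A ∧ b ≤ A ∧ m + b = a + A ∧ a ≤ A ∧
      110 * A ^ 3 ≤ a ^ 4 ∧ (a = m ∨ a = b) := by
  rcases le_total m b with h | h
  · exact ⟨m, b, hm, le_rfl, h, h, le_rfl, rfl, h, h2, Or.inl rfl⟩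
  · exact ⟨b, m, hb, h, le_rfl, le_rfl, h, by ring, h, h1, Or.inr rfl⟩

theorem B2_ge {a : ℕ} (ha : 1 ≤ a) (h : 110 * a ^ 3 ≤ a ^ 4) : 110 ≤ a := by
  have h1 : 110 * a ^ 3 ≤ a * a ^ 3 := by
    calc 110 * a ^ 3 ≤ a ^ 4 := h
      _ = a * a ^ 3 := by ring
  exact Nat.le_of_mul_le_mul_right h1 (by positivity)

/-- The numeric inequality of the case (1). -/
theorem B2_num1 (m b : ℕ) (h1 : 110 * m ^ 3 ≤ b ^ 4) (h2 : 110 * b ^ 3 ≤ m ^ 4) (hm : 110 ≤ m)
    (hb : 110 ≤ b) : 6 * (m + b + 1) ^ 3 ≤ m ^ 4 ∧ 6 * (m + b + 1) ^ 3 ≤ b ^ 4 := by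
  obtain ⟨a, A, ha, ham, hab, hmA, hbA, hs, haA, h, -⟩ := B2_minmax m b h1 h2 hm hb
  have e1 : 110 * (m + b + 1) ≤ 221 * A := by omega
  have e2 : (110 * (m + b + 1)) ^ 3 ≤ (221 * A) ^ 3 := Nat.pow_le_pow_left e1 3
  have e3 : 6 * (m + b + 1) ^ 3 ≤ 110 * A ^ 3 := by
    rw [mul_pow, mul_pow] at e2
    have e4 : (110 : ℕ) ^ 3 = 1331000 := by norm_num
    have e5 : (221 : ℕ) ^ 3 = 10793861 := by norm_num
    rw [e4, e5] at e2
    omega
  have e6 : a ^ 4 ≤ m ^ 4 := Nat.pow_le_pow_left ham 4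
  have e7 : a ^ 4 ≤ b ^ 4 := Nat.pow_le_pow_left hab 4
  exact ⟨by omega, by omega⟩

/-- The numeric inequality of the case (3). -/
theorem B2_num3 (m b : ℕ) (h1 : 110 * m ^ 3 ≤ b ^ 4) (h2 : 110 * b ^ 3 ≤ m ^ 4) (hm : 110 ≤ m)
    (hb : 110 ≤ b) : 6 * ((m + b + 1) * (2 * b + 3 * m + 3)) ≤ m * ((b + 2) * (b + 3)) := by
  obtain ⟨a, A, ha, ham, hab, hmA, hbA, hs, haA, h, -⟩ := B2_minmax m b h1 h2 hm hb
  have e1 : 110 * (m + b + 1) ≤ 221 * A := by omega
  have e2 : 110 * (2 * b + 3 * m + 3) ≤ 553 * A := by omega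
  have e3 : (110 * (m + b + 1)) * (110 * (2 * b + 3 * m + 3)) ≤ (221 * A) * (553 * A) :=
    Nat.mul_le_mul e1 e2
  have e4 : 6 * ((m + b + 1) * (2 * b + 3 * m + 3)) ≤ 61 * A ^ 2 := by
    have e5 : (110 * (m + b + 1)) * (110 * (2 * b + 3 * m + 3)) =
        12100 * ((m + b + 1) * (2 * b + 3 * m + 3)) := by ring
    have e6 : (221 * A) * (553 * A) = 122213 * A ^ 2 := by ring
    rw [e5, e6] at e3
    omega
  have e7 : 110 * A ^ 2 ≤ a ^ 3 := by
    have e8 : 110 * A ^ 2 * A ≤ a ^ 3 * A := by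
      calc 110 * A ^ 2 * A = 110 * A ^ 3 := by ring
        _ ≤ a ^ 4 := h
        _ = a ^ 3 * a := by ring
        _ ≤ a ^ 3 * A := Nat.mul_le_mul_left _ haA
    exact Nat.le_of_mul_le_mul_right e8 (by omega)
  have e9 : a ^ 3 ≤ m * ((b + 2) * (b + 3)) := by
    calc a ^ 3 = a * (a * a) := by ring
      _ ≤ m * ((b + 2) * (b + 3)) :=
        Nat.mul_le_mul ham (Nat.mul_le_mul (by omega) (by omega))
  omega

theorem B2_core (hT : THR_stmt) (hS : ST2_stmt) (n d : Fin 2 → ℕ) (hn : ∀ i, 1 ≤ n i)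
    (h : ∀ i l, 110 * n i ^ 3 ≤ n l ^ 4) (hd : ∀ i, 1 ≤ d i) (i j : Fin 2) (hij : i ≠ j)
    (h3j : 3 ≤ d j) : ¬ Special n d := by
  have hsum : ∑ l, n l = n i + n j := by
    fin_cases i <;> fin_cases j <;> simp_all [Fin.sum_univ_two, add_comm]
  have hej : (Finset.univ.erase j : Finset (Fin 2)) = {i} := by
    fin_cases i <;> fin_cases j <;> simp_all <;> decide
  have hei : (Finset.univ.erase i : Finset (Fin 2)) = {j} := by
    fin_cases i <;> fin_cases j <;> simp_all <;> decide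
  have hm := B2_ge (hn i) (h i i)
  have hb := B2_ge (hn j) (h j j)
  have hbm := h j i
  have hmb := h i j
  set m := n i with hm_def
  set b := n j with hb_def
  obtain ⟨q1, q2⟩ := B2_num1 m b hmb hbm hm hb
  have hjval : hj n d j = (b + d j - 2).choose (b - 1) * (m + d i).choose m := by
    show (n j + d j - 2).choose (n j - 1) * ∏ i ∈ Finset.univ.erase j, (n i + d i).choose (n i) = _
    rw [hej, Finset.prod_singleton]
  rcases Nat.lt_or_ge (d i) 2 with hdi | hdi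
  · have hdi1 : d i = 1 := by have := hd i; omega
    rcases Nat.lt_or_ge (d j) 4 with hdj | hdj
    · -- `d j = 3`
      have hdj3 : d j = 3 := by omega
      refine hS 2 n d hn hd i hdi1 (by omega) {j} (by simpa using hij) (by simpa using hdj3) ?_
      rw [hsum, hei, Finset.prod_singleton, hdj3, Nat.add_sub_cancel_left]
      have e1 : (b + 3).choose b = (b + 3).choose 3 := Nat.choose_symm_of_eq_add rfl
      have e2 := B2_ch3 (b + 1)
      have e3 := B2_num3 m b hmb hbm hm hb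
      rw [← hb_def, e1]
      have e4 : 6 * ((m + b + 1) * (b + 1) * (2 * b + 3 * m + 3)) ≤ 6 * (m * (b + 3).choose 3) := by
        calc 6 * ((m + b + 1) * (b + 1) * (2 * b + 3 * m + 3))
            = (b + 1) * (6 * ((m + b + 1) * (2 * b + 3 * m + 3))) := by ring
          _ ≤ (b + 1) * (m * ((b + 2) * (b + 3))) := Nat.mul_le_mul_left _ e3
          _ = m * ((b + 1 + 2) * (b + 1 + 1) * (b + 1)) := by ring
          _ = m * (6 * (b + 1 + 2).choose 3) := by rw [e2]
          _ = 6 * (m * (b + 3).choose 3) := by ring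
      exact Nat.le_of_mul_le_mul_left e4 (by norm_num)
    · refine hT 2 n d le_rfl hn hd j (Or.inl ⟨h3j, ?_⟩)
      rw [hsum, hjval, hdi1]
      have e1 : (b + 2).choose 3 ≤ (b + d j - 2).choose (b - 1) := by
        have : (b + 2).choose 3 = (b + 2).choose (b - 1) :=
          Nat.choose_symm_of_eq_add (by omega)
        rw [this]
        exact Nat.choose_le_choose _ (by omega)
      have e2 : m + 1 = (m + 1).choose m := by
        rw [Nat.choose_symm_of_eq_add (show m + 1 = m + 1 from rfl), Nat.choose_one_right]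
      have e3 := B2_ch3 b
      rw [← e2]
      have e4 : 6 * (m + b + 1) ^ 3 ≤ 6 * ((b + d j - 2).choose (b - 1) * (m + 1)) := by
        obtain ⟨a, A, ha, ham, hab, hmA, hbA, hs, haA, hh, hor⟩ := B2_minmax m b hmb hbm hm hb
        have f1 : 6 * (m + b + 1) ^ 3 ≤ a ^ 4 := by
          rcases hor with h0 | h0
          · rw [h0]; exact q1
          · rw [h0]; exact q2
        calc 6 * (m + b + 1) ^ 3 ≤ a ^ 4 := f1
          _ = a * a * a * a := by ring
          _ ≤ (b + 2) * (b + 1) * b * (m + 1) :=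
            Nat.mul_le_mul (Nat.mul_le_mul (Nat.mul_le_mul (by omega) (by omega)) hab) (by omega)
          _ = 6 * (b + 2).choose 3 * (m + 1) := by rw [e3]
          _ ≤ 6 * (b + d j - 2).choose (b - 1) * (m + 1) :=
            Nat.mul_le_mul_right _ (Nat.mul_le_mul_left _ e1)
          _ = 6 * ((b + d j - 2).choose (b - 1) * (m + 1)) := by ring
      exact Nat.le_of_mul_le_mul_left e4 (by norm_num)
  · refine hT 2 n d le_rfl hn hd j (Or.inl ⟨h3j, ?_⟩)
    rw [hsum, hjval]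
    have e1 : (b + 1).choose 2 ≤ (b + d j - 2).choose (b - 1) := by
      have : (b + 1).choose 2 = (b + 1).choose (b - 1) :=
        Nat.choose_symm_of_eq_add (by omega)
      rw [this]
      exact Nat.choose_le_choose _ (by omega)
    have e2 : (m + 2).choose 2 ≤ (m + d i).choose m := by
      have : (m + 2).choose 2 = (m + 2).choose m := Nat.choose_symm_of_eq_add (by omega)
      rw [this]
      exact Nat.choose_le_choose _ (by omega)
    have e3 := B2_ch2 b
    have e4 := B2_ch2 (m + 1)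
    have e5 : 4 * (m + b + 1) ^ 3 ≤ 4 * ((b + d j - 2).choose (b - 1) * (m + d i).choose m) := by
      obtain ⟨a, A, ha, ham, hab, hmA, hbA, hs, haA, hh, hor⟩ := B2_minmax m b hmb hbm hm hb
      have f1 : 4 * (m + b + 1) ^ 3 ≤ a ^ 4 := by
        rcases hor with h0 | h0
        · rw [h0]; omega
        · rw [h0]; omega
      calc 4 * (m + b + 1) ^ 3 ≤ a ^ 4 := f1
        _ = (a * a) * (a * a) := by ring
        _ ≤ ((b + 1) * b) * ((m + 1 + 1) * (m + 1)) :=
          Nat.mul_le_mul (Nat.mul_le_mul (by omega) hab) (Nat.mul_le_mul (by omega) (by omega))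
        _ = (2 * (b + 1).choose 2) * (2 * (m + 1 + 1).choose 2) := by rw [e3, e4]
        _ ≤ (2 * (b + d j - 2).choose (b - 1)) * (2 * (m + d i).choose m) :=
          Nat.mul_le_mul (Nat.mul_le_mul_left _ e1) (Nat.mul_le_mul_left _ e2)
        _ = 4 * ((b + d j - 2).choose (b - 1) * (m + d i).choose m) := by ring
    exact Nat.le_of_mul_le_mul_left e5 (by norm_num)

theorem B2 (hT : THR_stmt) (hS : ST2_stmt) : B2_stmt := by
  intro n d hn h hd hj
  obtain ⟨j, hj⟩ := hj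
  fin_cases j
  · exact B2_core hT hS n d hn h hd 1 0 (by decide) hj
  · exact B2_core hT hS n d hn h hd 0 1 (by decide) hj

end Pool.Agent.SG
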